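import Pool.Agent.H17.L.R_seed8.Y957.VK.Stm

set_option autoImplicit false

/-! # Bounds for the factors `WJ` (helper of the project VK) -/

namespace Pool.Agent.Y331.VK

open Finset
open Pool.Agent.Y957.VK (dz mn WJ)

theorem dz_le (θ : ℝ) (h : |θ| ≤ 1 / 2) : |θ| ≤ dz θ := by
  rw [dz, abs_sub_round_eq_min]
  rcases lt_or_ge θ 0 with h0 | h0
  · have h1 : θ < 0 := h0
    rw [abs_of_neg h1] at h ⊢
    have h2 : Int.fract θ = θ + 1 := by
      rw [Int.fract_eq_iff]
      refine ⟨by linarith, by linarith, -1, ?_⟩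
      push_cast
      ring
    rw [h2]
    refine le_min ?_ ?_ <;> linarith
  · rw [abs_of_nonneg h0] at h ⊢
    have h2 : Int.fract θ = θ := by
      rw [Int.fract_eq_self]
      exact ⟨h0, by linarith⟩
    rw [h2]
    refine le_min ?_ ?_ <;> linarith

theorem mn_le (V : ℕ) (θ : ℝ) : mn V θ ≤ 2 * V + 1 := by
  rw [mn]
  split_ifs
  · exact le_rfl
  · exact min_le_left _ _

theorem mn_le' (V : ℕ) (θ : ℝ) (h0 : θ ≠ 0) (h : |θ| ≤ 1 / 2) : mn V θ ≤ 1 / (2 * |θ|) := by
  have h1 := dz_le θ h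
  have h2 : 0 < |θ| := abs_pos.mpr h0
  have h3 : dz θ ≠ 0 := by
    intro hh
    rw [hh] at h1
    linarith
  rw [mn, if_neg h3]
  refine (min_le_right _ _).trans ?_
  apply one_div_le_one_div_of_le (by linarith)
  linarith

theorem wb : Pool.Agent.Y957.VK.S_WB := by
  intro s M j a hs hM
  have hV : 1 ≤ s * M ^ j := Nat.mul_pos hs (pow_pos hM j)
  set V := s * M ^ j with hVdef
  have hV' : (1 : ℝ) ≤ (V : ℝ) := by exact_mod_cast hV
  constructor
  · rw [WJ, ← hVdef]
    refine (Finset.sum_le_card_nsmul (Finset.Icc (-(V : ℤ)) (V : ℤ))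
      (fun u : ℤ => mn V (a * (u : ℝ))) (2 * (V : ℝ) + 1) fun u _ => mn_le V (a * u)).trans (le_of_eq ?_)
    rw [Int.card_Icc, nsmul_eq_mul]
    have : ((V : ℤ) + 1 - -(V : ℤ)).toNat = 2 * V + 1 := by omega
    rw [this]
    push_cast
    ring
  · intro ha h
    have ha0 : 0 < |a| := abs_pos.mpr ha
    rw [WJ, ← hVdef]
    let g : ℤ → ℝ := fun u => if u = 0 then 2 * (V : ℝ) + 1 else 1 / (2 * |a| * |(u : ℝ)|)
    have hg : Function.Even g := by
      intro u
      simp only [g, neg_eq_zero, Int.cast_neg, abs_neg]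
    have h1 : ∑ u ∈ Finset.Icc (-(V : ℤ)) (V : ℤ), mn V (a * u) ≤
        ∑ u ∈ Finset.Icc (-(V : ℤ)) (V : ℤ), g u := by
      refine Finset.sum_le_sum fun u hu => ?_
      simp only [g]
      split_ifs with hu0
      · exact mn_le V _
      · have hu' : (u : ℝ) ≠ 0 := by exact_mod_cast hu0
        have hb : |(u : ℝ)| ≤ V := by
          rw [Finset.mem_Icc] at hu
          rw [abs_le]
          constructor
          · have := hu.1
            exact_mod_cast this
          · exact_mod_cast hu.2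
        have h2 : |a * u| ≤ 1 / 2 := by
          rw [abs_mul]
          exact (mul_le_mul_of_nonneg_left hb ha0.le).trans h
        refine (mn_le' V (a * u) (mul_ne_zero ha hu') h2).trans (le_of_eq ?_)
        rw [abs_mul]
        ring
    refine h1.trans ?_
    rw [sum_Icc_of_even_eq_range hg, Finset.sum_range_succ']
    have g0 : g 0 = 2 * (V : ℝ) + 1 := by simp [g]
    have h3 : ∑ k ∈ Finset.range V, g ((k + 1 : ℕ) : ℤ) = 1 / (2 * |a|) * (harmonic V : ℝ) := by
      rw [harmonic]
      push_cast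
      rw [Finset.mul_sum]
      refine Finset.sum_congr rfl fun k _ => ?_
      have hk : ((k : ℤ) + 1) ≠ 0 := by omega
      simp only [g, if_neg hk]
      have hk1 : |((((k : ℤ) + 1 : ℤ)) : ℝ)| = (k : ℝ) + 1 := by
        push_cast
        exact abs_of_nonneg (by positivity)
      rw [hk1]
      field_simp
    have h4 := harmonic_le_one_add_log V
    have g0' : g ((0 : ℕ) : ℤ) = 2 * (V : ℝ) + 1 := by simp [g]
    rw [h3, g0', g0, two_nsmul]
    have h5 : 1 / |a| * (harmonic V : ℝ) ≤ 1 / |a| * (1 + Real.log V) :=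
      mul_le_mul_of_nonneg_left h4 (by positivity)
    have h6 : 1 / (2 * |a|) * (harmonic V : ℝ) + 1 / (2 * |a|) * (harmonic V : ℝ) =
        1 / |a| * (harmonic V : ℝ) := by
      field_simp
      ring
    linarith

end Pool.Agent.Y331.VK
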